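import Pool.Agent.Helper15.LP.Defs

set_option autoImplicit false

/-!
GP: most pairs of sign vectors are good.
-/

open Finset
open scoped Classical
open Pool.Agent.Helper15.LR

namespace Pool.Agent.Helper15.LP

noncomputable section

/-- agreement pattern -/
def GP_xn {V : Type} (a b : V → Bool) : V → Bool := fun v => a v == b v

theorem GP_sgn_sq (c : Bool) : |sgn c| = 1 := by
  cases c <;> simp [sgn]

theorem GP_ind {V : Type} (a b : V → Bool) (a0 b0 : Bool) (v : V) :
    ((if a v = a0 ∧ b v = b0 then (1 : ℝ) else 0) - 1 / 4) =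
      (sgn a0 * sgn (a v) + sgn b0 * sgn (b v) + sgn a0 * sgn b0 * sgn (GP_xn a b v)) / 4 := by
  unfold GP_xn
  cases h1 : a v <;> cases h2 : b v <;> cases a0 <;> cases b0 <;> simp [sgn] <;> norm_num

/-- the event that the neighbourhood of `v` is unbalanced -/
def GP_R {V : Type} [Fintype V] (G : SimpleGraph V) (D m : ℕ) (v : V) : Set (V → Bool) :=
  {x | 2 * Real.sqrt (m * D) < |∑ w, (if w ∈ Nb G v then (1 : ℝ) else 0) * sgn (x w)|}

/-- the event of large norm -/
def GP_O {V : Type} [Fintype V] (G : SimpleGraph V) (D m : ℕ) : Set (V → Bool) :=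
  {x | ∃ f h : V → ℝ, S2 f ≤ 1 ∧ S2 h ≤ 1 ∧
        7 * Real.sqrt m * (D * Real.sqrt D) < |∑ v, sgn (x v) * Av G f v * Av G h v|}

/-- bad sign vectors -/
def GP_Bad {V : Type} [Fintype V] (G : SimpleGraph V) (D m : ℕ) : Set (V → Bool) :=
  {x | (∃ v, x ∈ GP_R G D m v) ∨ x ∈ GP_O G D m}

theorem GP_good {V : Type} [Fintype V] {G : SimpleGraph V} {D m : ℕ} (hreg : Reg G D)
    {a b : V → Bool} (ha : a ∉ GP_Bad G D m) (hb : b ∉ GP_Bad G D m)
    (hab : GP_xn a b ∉ GP_Bad G D m) : GoodPair G D m a b := by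
  have key : ∀ x : V → Bool, x ∉ GP_Bad G D m →
      (∀ v, |∑ w, (if w ∈ Nb G v then (1 : ℝ) else 0) * sgn (x w)| ≤ 2 * Real.sqrt (m * D)) ∧
      (∀ f h : V → ℝ, S2 f ≤ 1 → S2 h ≤ 1 →
        |∑ v, sgn (x v) * Av G f v * Av G h v| ≤ 7 * Real.sqrt m * (D * Real.sqrt D)) := by
    intro x hx
    constructor
    · intro v
      by_contra h
      exact hx (Or.inl ⟨v, not_le.1 h⟩)
    · intro f h hf hh
      by_contra hc
      exact hx (Or.inr ⟨f, h, hf, hh, not_le.1 hc⟩)
  obtain ⟨ka, oa⟩ := key a ha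
  obtain ⟨kb, ob⟩ := key b hb
  obtain ⟨kc, oc⟩ := key _ hab
  have h3 : ∀ (a0 b0 : Bool) (X Y Z M : ℝ), |X| ≤ M → |Y| ≤ M → |Z| ≤ M →
      |(sgn a0 * X + sgn b0 * Y + sgn a0 * sgn b0 * Z) / 4| ≤ 3 / 4 * M := by
    intro a0 b0 X Y Z M hX hY hZ
    have h1 : |sgn a0 * X| ≤ M := by rw [abs_mul, GP_sgn_sq, one_mul]; exact hX
    have h2 : |sgn b0 * Y| ≤ M := by rw [abs_mul, GP_sgn_sq, one_mul]; exact hY
    have h3 : |sgn a0 * sgn b0 * Z| ≤ M := by
      rw [abs_mul, abs_mul, GP_sgn_sq, GP_sgn_sq, one_mul, one_mul]; exact hZ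
    rw [abs_le] at h1 h2 h3 ⊢
    constructor <;> linarith
  constructor
  · intro v a0 b0
    have h1 : ((((Nb G v).filter (fun w => a w = a0 ∧ b w = b0)).card : ℝ) - D / 4)
        = (sgn a0 * (∑ w, (if w ∈ Nb G v then (1 : ℝ) else 0) * sgn (a w))
          + sgn b0 * (∑ w, (if w ∈ Nb G v then (1 : ℝ) else 0) * sgn (b w))
          + sgn a0 * sgn b0 * (∑ w, (if w ∈ Nb G v then (1 : ℝ) else 0) *
              sgn (GP_xn a b w))) / 4 := by
      have h2 : (((Nb G v).filter (fun w => a w = a0 ∧ b w = b0)).card : ℝ) - D / 4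
          = ∑ w ∈ Nb G v, ((if a w = a0 ∧ b w = b0 then (1 : ℝ) else 0) - 1 / 4) := by
        rw [Finset.sum_sub_distrib, Finset.sum_boole, Finset.sum_const, hreg v]
        simp only [nsmul_eq_mul]
        ring
      rw [h2, Finset.mul_sum, Finset.mul_sum, Finset.mul_sum, ← Finset.sum_add_distrib,
        ← Finset.sum_add_distrib, Finset.sum_div, ← Finset.sum_filter_add_sum_filter_not
          Finset.univ (fun w => w ∈ Nb G v)]
      have h4 : ∑ x ∈ Finset.univ.filter (fun w => ¬ w ∈ Nb G v),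
          (sgn a0 * ((if x ∈ Nb G v then (1 : ℝ) else 0) * sgn (a x)) +
            sgn b0 * ((if x ∈ Nb G v then (1 : ℝ) else 0) * sgn (b x)) +
            sgn a0 * sgn b0 * ((if x ∈ Nb G v then (1 : ℝ) else 0) *
              sgn (GP_xn a b x))) / 4 = 0 := by
        refine Finset.sum_eq_zero fun x hx => ?_
        have : x ∉ Nb G v := (Finset.mem_filter.1 hx).2
        simp [this]
      rw [h4, add_zero, Finset.filter_mem_eq_inter, Finset.univ_inter]
      refine Finset.sum_congr rfl fun w hw => ?_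
      rw [GP_ind, if_pos hw]
      ring
    rw [h1]
    have := h3 a0 b0 _ _ _ _ (ka v) (kb v) (kc v)
    linarith
  · intro f h a0 b0 hf hh
    have h1 : ∑ v, ((if a v = a0 ∧ b v = b0 then (1 : ℝ) else 0) - 1 / 4) * Av G f v * Av G h v
        = (sgn a0 * (∑ v, sgn (a v) * Av G f v * Av G h v)
          + sgn b0 * (∑ v, sgn (b v) * Av G f v * Av G h v)
          + sgn a0 * sgn b0 * (∑ v, sgn (GP_xn a b v) * Av G f v * Av G h v)) / 4 := by
      rw [Finset.mul_sum, Finset.mul_sum, Finset.mul_sum, ← Finset.sum_add_distrib,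
        ← Finset.sum_add_distrib, Finset.sum_div]
      refine Finset.sum_congr rfl fun w _ => ?_
      rw [GP_ind]
      ring
    rw [h1]
    have := h3 a0 b0 _ _ _ _ (oa f h hf hh) (ob f h hf hh) (oc f h hf hh)
    have h5 : 0 ≤ Real.sqrt m * (D * Real.sqrt D) := by positivity
    linarith

theorem GP_bad_card (hO : OpNorm_stmt) (hR : Rade_stmt) (hC : PPCount_stmt) (hU : PPUnion_stmt)
    {V : Type} [Fintype V] {G : SimpleGraph V} {D m : ℕ} (hreg : Reg G D) (hD : 1 ≤ D)
    (hm : 60 ≤ m) :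
    ((univ.filter (fun x => x ∈ GP_Bad G D m)).card : ℝ) ≤ 2 ^ Fintype.card V *
      (Fintype.card V * Real.exp (-(3 * m)) + Fintype.card V * (2 * Real.exp (-(2 * m)))) := by
  have hDr : (0 : ℝ) < (D : ℝ) := by exact_mod_cast hD
  have h1 : PP (un : V → Bool → ℝ) (GP_Bad G D m) ≤
      Fintype.card V * Real.exp (-(3 * m)) + Fintype.card V * (2 * Real.exp (-(2 * m))) := by
    have h2 := hU V Bool (Option V) un (GP_Bad G D m)
      (fun j => match j with | none => GP_O G D m | some v => GP_R G D m v)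
      (fun _ _ => by unfold un; norm_num) (by
        rintro x (⟨v, hv⟩ | hx)
        · exact ⟨some v, hv⟩
        · exact ⟨none, hx⟩)
    refine h2.trans ?_
    rw [Fintype.sum_option]
    refine add_le_add (hO V G D m hreg hD (by omega)) ?_
    have h3 : ∀ v ∈ (Finset.univ : Finset V), PP (un : V → Bool → ℝ) (GP_R G D m v) ≤
        2 * Real.exp (-(2 * m)) := by
      intro v _
      have h4 := hR V (fun w => if w ∈ Nb G v then (1 : ℝ) else 0) D (2 * Real.sqrt (m * D)) hDr
        (by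
          have : ∑ i, (if i ∈ Nb G v then (1 : ℝ) else 0) ^ 2 = D := by
            have h5 : ∀ i : V, (if i ∈ Nb G v then (1 : ℝ) else 0) ^ 2
                = if i ∈ Nb G v then (1 : ℝ) else 0 := by
              intro i; split_ifs <;> norm_num
            simp only [h5]
            rw [Finset.sum_boole, Finset.filter_mem_eq_inter, Finset.univ_inter, hreg v]
          exact this.le) (by positivity)
      have h6 : (2 * Real.sqrt (m * D)) ^ 2 / (2 * D) = 2 * m := by
        rw [mul_pow, Real.sq_sqrt (by positivity)]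
        field_simp
      rw [h6] at h4
      exact h4
    refine (Finset.sum_le_card_nsmul _ _ _ h3).trans ?_
    simp
  rw [hC V (GP_Bad G D m), div_le_iff₀ (by positivity)] at h1
  linarith

theorem lp_GP (hO : OpNorm_stmt) (hR : Rade_stmt) (hC : PPCount_stmt) (hU : PPUnion_stmt) :
    GoodPair_stmt := by
  intro V _ G D m hreg hD hm hn
  have hbad := GP_bad_card hO hR hC hU hreg hD hm
  obtain ⟨Bf, hBf⟩ : ∃ Bf : Finset (V → Bool), Bf = univ.filter (fun x => x ∈ GP_Bad G D m) :=
    ⟨_, rfl⟩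
  rw [← hBf] at hbad
  have hmem : ∀ x, x ∈ Bf ↔ x ∈ GP_Bad G D m := by intro x; rw [hBf]; simp
  have hcov : univ.filter (fun p : (V → Bool) × (V → Bool) => ¬ GoodPair G D m p.1 p.2) ⊆
      (univ.filter (fun p : (V → Bool) × (V → Bool) => p.1 ∈ Bf)) ∪
      ((univ.filter (fun p : (V → Bool) × (V → Bool) => p.2 ∈ Bf)) ∪
      (univ.filter (fun p : (V → Bool) × (V → Bool) => GP_xn p.1 p.2 ∈ Bf))) := by
    intro p hp
    simp only [Finset.mem_filter, Finset.mem_univ, true_and, Finset.mem_union] at hp ⊢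
    by_contra hc
    push Not at hc
    obtain ⟨h1, h2, h3⟩ := hc
    rw [hmem] at h1 h2 h3
    exact hp (GP_good hreg h1 h2 h3)
  have hcV : Fintype.card (V → Bool) = 2 ^ Fintype.card V := by simp
  have c1 : (univ.filter (fun p : (V → Bool) × (V → Bool) => p.1 ∈ Bf)).card ≤
      Bf.card * 2 ^ Fintype.card V := by
    have : (univ.filter (fun p : (V → Bool) × (V → Bool) => p.1 ∈ Bf)) ⊆ Bf ×ˢ univ := by
      intro p hp
      simpa using hp
    refine (Finset.card_le_card this).trans ?_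
    rw [Finset.card_product, Finset.card_univ, hcV]
  have c2 : (univ.filter (fun p : (V → Bool) × (V → Bool) => p.2 ∈ Bf)).card ≤
      Bf.card * 2 ^ Fintype.card V := by
    have : (univ.filter (fun p : (V → Bool) × (V → Bool) => p.2 ∈ Bf)) ⊆ univ ×ˢ Bf := by
      intro p hp
      simpa using hp
    refine (Finset.card_le_card this).trans ?_
    rw [Finset.card_product, Finset.card_univ, hcV, mul_comm]
  have c3 : (univ.filter (fun p : (V → Bool) × (V → Bool) => GP_xn p.1 p.2 ∈ Bf)).card ≤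
      Bf.card * 2 ^ Fintype.card V := by
    have h1 : (univ.filter (fun p : (V → Bool) × (V → Bool) => GP_xn p.1 p.2 ∈ Bf)).card ≤
        (Bf ×ˢ (univ : Finset (V → Bool))).card := by
      refine Finset.card_le_card_of_injOn (fun p => (GP_xn p.1 p.2, p.2)) ?_ ?_
      · intro p hp
        have : GP_xn p.1 p.2 ∈ Bf := by simpa using hp
        simpa using this
      · intro p _ q _ hpq
        simp only [Prod.mk.injEq] at hpq
        obtain ⟨h1, h2⟩ := hpq
        refine Prod.ext ?_ h2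
        funext v
        have h3 := congrFun h1 v
        have h4 := congrFun h2 v
        unfold GP_xn at h3
        rw [h4] at h3
        revert h3
        cases p.1 v <;> cases q.1 v <;> cases q.2 v <;> simp
    refine h1.trans ?_
    rw [Finset.card_product, Finset.card_univ, hcV]
  have hcard : (univ.filter (fun p : (V → Bool) × (V → Bool) =>
      ¬ GoodPair G D m p.1 p.2)).card ≤ 3 * (Bf.card * 2 ^ Fintype.card V) := by
    refine (Finset.card_le_card hcov).trans ?_
    refine (Finset.card_union_le _ _).trans ?_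
    have := Finset.card_union_le (univ.filter (fun p : (V → Bool) × (V → Bool) => p.2 ∈ Bf))
      (univ.filter (fun p : (V → Bool) × (V → Bool) => GP_xn p.1 p.2 ∈ Bf))
    omega
  have hcardR : ((univ.filter (fun p : (V → Bool) × (V → Bool) =>
      ¬ GoodPair G D m p.1 p.2)).card : ℝ) ≤ 3 * (Bf.card * 2 ^ Fintype.card V) := by
    exact_mod_cast hcard
  refine hcardR.trans ?_
  -- numerics
  have hmr : (60 : ℝ) ≤ m := by exact_mod_cast hm
  have e1 : Real.exp (-(3 * (m : ℝ))) ≤ Real.exp (-(2 * m)) :=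
    Real.exp_le_exp.2 (by linarith)
  have e2 : Real.exp (-(2 * (m : ℝ))) = Real.exp (-(m : ℝ)) * Real.exp (-(m : ℝ)) := by
    rw [← Real.exp_add]; congr 1; ring
  have e3 : 9 * (Fintype.card V * Real.exp (-(m : ℝ))) ≤ 1 := by
    have h1 : (Fintype.card V : ℝ) * Real.exp (-(m : ℝ)) ≤ Real.exp (-(99 / 100 * m)) := by
      calc (Fintype.card V : ℝ) * Real.exp (-(m : ℝ))
          ≤ Real.exp (m / 100) * Real.exp (-(m : ℝ)) :=
            mul_le_mul_of_nonneg_right hn (Real.exp_pos _).le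
        _ = Real.exp (-(99 / 100 * m)) := by rw [← Real.exp_add]; congr 1; ring
    have h2 : Real.exp (-(99 / 100 * (m : ℝ))) ≤ 1 / 9 := by
      rw [Real.exp_neg, ← one_div]
      refine one_div_le_one_div_of_le (by norm_num) ?_
      have := Real.add_one_le_exp (99 / 100 * (m : ℝ))
      linarith
    linarith
  have hX : (0 : ℝ) ≤ 2 ^ Fintype.card V := by positivity
  have hXX : (4 : ℝ) ^ Fintype.card V = 2 ^ Fintype.card V * 2 ^ Fintype.card V := by
    rw [← mul_pow]; norm_num
  rw [hXX]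
  have hN : (0 : ℝ) ≤ Fintype.card V := by positivity
  have e4 : (Fintype.card V : ℝ) * Real.exp (-(3 * m)) + Fintype.card V *
      (2 * Real.exp (-(2 * m))) ≤ 3 * (Fintype.card V * Real.exp (-(m : ℝ))) *
        Real.exp (-(m : ℝ)) := by
    have := mul_le_mul_of_nonneg_left e1 hN
    rw [e2] at this ⊢
    nlinarith
  have e5 : 3 * ((Fintype.card V : ℝ) * Real.exp (-(3 * m)) + Fintype.card V *
      (2 * Real.exp (-(2 * m)))) ≤ Real.exp (-(m : ℝ)) := by
    have h1 := mul_le_mul_of_nonneg_right e3 (Real.exp_pos (-(m : ℝ))).le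
    linarith
  calc 3 * ((Bf.card : ℝ) * 2 ^ Fintype.card V)
      ≤ 3 * ((2 ^ Fintype.card V * (Fintype.card V * Real.exp (-(3 * m)) + Fintype.card V *
        (2 * Real.exp (-(2 * m))))) * 2 ^ Fintype.card V) := by
        have := mul_le_mul_of_nonneg_right hbad hX
        linarith
    _ = (2 ^ Fintype.card V * 2 ^ Fintype.card V) * (3 * ((Fintype.card V : ℝ) *
        Real.exp (-(3 * m)) + Fintype.card V * (2 * Real.exp (-(2 * m))))) := by ring
    _ ≤ (2 ^ Fintype.card V * 2 ^ Fintype.card V) * Real.exp (-(m : ℝ)) :=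
        mul_le_mul_of_nonneg_left e5 (by positivity)

end

end Pool.Agent.Helper15.LP
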